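import Pool.Agent.PPR.St

/-!
# Project PPR: the adjoint representation of the matrices of size two
-/

set_option autoImplicit false

namespace Pool.Agent.PPR

open Filter Topology Matrix

namespace ADJ

theorem apply (M : Matrix (Fin 2) (Fin 2) ℝ) (p q : Fin 2 × Fin 2) :
    Ad M p q = M p.1 q.1 * M⁻¹ q.2 p.2 := rfl

theorem one : Ad 1 = 1 := by
  ext p q
  rw [apply, inv_one, Matrix.one_apply, Matrix.one_apply, Matrix.one_apply]
  rcases p with ⟨a, b⟩
  rcases q with ⟨c, d⟩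
  by_cases h1 : a = c
  · by_cases h2 : b = d
    · simp [h1, h2]
    · have h2' : d ≠ b := fun h => h2 h.symm
      simp [h1, h2, h2']
  · simp [h1]

theorem mul (M N : Matrix (Fin 2) (Fin 2) ℝ) : Ad (M * N) = Ad M * Ad N := by
  unfold Ad
  rw [Matrix.mul_inv_rev, Matrix.transpose_mul]
  exact Matrix.mul_kronecker_mul M N (M⁻¹)ᵀ (N⁻¹)ᵀ

theorem smul (M : Matrix (Fin 2) (Fin 2) ℝ) (c : ℝ) (hM : M.det ≠ 0) (hc : c ≠ 0) :
    Ad (c • M) = Ad M := by
  have h1 : (c • M)⁻¹ = c⁻¹ • M⁻¹ := by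
    apply Matrix.inv_eq_right_inv
    rw [Matrix.smul_mul, Matrix.mul_smul, smul_smul, mul_inv_cancel₀ hc, one_smul,
      Matrix.mul_nonsing_inv _ (isUnit_iff_ne_zero.2 hM)]
  ext p q
  rw [apply, apply, h1, Matrix.smul_apply, Matrix.smul_apply, smul_eq_mul, smul_eq_mul]
  field_simp

theorem scalar (M : Matrix (Fin 2) (Fin 2) ℝ) (hM : M.det ≠ 0) (h : Ad M = 1) :
    ∃ c : ℝ, c ≠ 0 ∧ M = c • (1 : Matrix (Fin 2) (Fin 2) ℝ) := by
  have hi : M⁻¹ * M = 1 := Matrix.nonsing_inv_mul _ (isUnit_iff_ne_zero.2 hM)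
  have h0 : M⁻¹ 0 0 * M 0 0 + M⁻¹ 0 1 * M 1 0 = 1 := by
    have := congrFun (congrFun hi 0) 0
    rw [Matrix.mul_apply, Fin.sum_univ_two] at this
    simpa using this
  have e : ∀ i k j, M i k * M⁻¹ 0 j = if (i, j) = (k, (0 : Fin 2)) then 1 else 0 := by
    intro i k j
    have := congrFun (congrFun h (i, j)) (k, 0)
    rw [apply, Matrix.one_apply] at this
    exact this
  have key : ∀ i k, M i k = if i = k then M 0 0 else 0 := by
    intro i k
    have e0 := e i k 0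
    have e1 := e i k 1
    have h1 : M i k = M i k * M⁻¹ 0 0 * M 0 0 + M i k * M⁻¹ 0 1 * M 1 0 := by
      linear_combination (-(M i k)) * h0
    rw [e0, e1] at h1
    rw [h1]
    by_cases hik : i = k
    · simp [hik]
    · simp [hik]
  have hM' : M = (M 0 0) • (1 : Matrix (Fin 2) (Fin 2) ℝ) := by
    ext i k
    rw [key i k, Matrix.smul_apply, Matrix.one_apply, smul_eq_mul]
    by_cases hik : i = k <;> simp [hik]
  refine ⟨M 0 0, ?_, hM'⟩
  intro h00
  apply hM
  rw [hM', h00, zero_smul, Matrix.det_zero]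

end ADJ

theorem t_ADJ : s_ADJ :=
  ⟨ADJ.one, fun M N _ _ => ADJ.mul M N, fun M c hM hc => ADJ.smul M c hM hc,
    fun M hM h => ADJ.scalar M hM h, fun M p q => ADJ.apply M p q⟩

end Pool.Agent.PPR
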