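import Pool.Agent.PPR.St

/-!
# Germs and composition (PPR): module COM
-/

set_option autoImplicit false

namespace Pool.Agent.PPR

open Filter Topology Matrix

namespace COM

theorem end_props (l : Filter ℝ) (hl : IsEnd l) : l.NeBot ∧ l ≤ cofinite := by
  rcases hl with rfl | ⟨a, rfl⟩
  · exact ⟨inferInstance, atBot_le_cofinite⟩
  · refine ⟨inferInstance, ?_⟩
    refine (nhdsWithin_mono a ?_).trans (nhdsNE_le_cofinite a)
    intro x hx
    exact ne_of_gt hx

theorem end_map (h : ℝ ≃o ℝ) (l : Filter ℝ) (hl : IsEnd l) : IsEnd (map h l) := by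
  rcases hl with rfl | ⟨a, rfl⟩
  · exact Or.inl h.map_atBot
  · right
    refine ⟨h a, ?_⟩
    have h1 := h.toHomeomorph.isEmbedding.map_nhdsWithin_eq (Set.Ioi a) a
    have h2 : (h.toHomeomorph : ℝ → ℝ) = h := rfl
    rw [h2, OrderIso.image_Ioi] at h1
    exact h1

end COM

open COM in
theorem t_COM (hMOB : s_MOB) : s_COM := by
  obtain ⟨h1, -, h3⟩ := hMOB
  refine ⟨?_, ?_, ?_, end_props, end_map⟩
  · intro f g l M N hf hg
    refine ⟨?_, ?_⟩
    · rw [Matrix.det_mul]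
      exact mul_ne_zero hf.1 hg.1
    · have hf2 := Filter.eventually_map.1 hf.2
      filter_upwards [hf2, hg.2] with x hx1 hx2
      have h4 := h1 M N x hx2.1 (by rw [← hx2.2]; exact hx1.1)
      refine ⟨h4.1, ?_⟩
      rw [h4.2, ← hx2.2]
      exact hx1.2
  · intro l
    refine ⟨by simp, Filter.Eventually.of_forall fun x => ?_⟩
    simp [mob]
  · intro f l M N hl hM hN
    obtain ⟨hne, hcof⟩ := end_props l hl
    refine h3 M N hM.1 hN.1 fun hfin => ?_
    have h4 : {x : ℝ | M 1 0 * x + M 1 1 ≠ 0 ∧ N 1 0 * x + N 1 1 ≠ 0 ∧ mob M x = mob N x}ᶜ ∈ l :=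
      hcof hfin.compl_mem_cofinite
    have h5 : ∀ᶠ x in l, False := by
      filter_upwards [h4, hM.2, hN.2] with x hx1 hx2 hx3
      exact hx1 ⟨hx2.1, hx3.1, by rw [← hx2.2, ← hx3.2]⟩
    exact h5.exists.elim fun _ h => h

end Pool.Agent.PPR
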