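import Pool.Agent.PPR.St

/-!
# Module CON: the positive cone
-/

set_option autoImplicit false

namespace Pool.Agent.PPR

open Filter Topology Matrix

namespace CON

/-- the composition moves points up -/
lemma up {k k' : ℝ ≃o ℝ} {l : Filter ℝ} (h : ∀ᶠ x in l, x ≤ k x) (h' : ∀ᶠ x in l, x ≤ k' x)
    (hs : (∀ᶠ x in l, x < k x) ∨ ∀ᶠ x in l, x < k' x) : ∀ᶠ x in l, x < (k * k') x := by
  rcases hs with hs | hs
  · filter_upwards [hs, h'] with x h1 h2
    exact lt_of_lt_of_le h1 (k.monotone h2)
  · filter_upwards [hs, h] with x h1 h2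
    exact lt_of_le_of_lt h2 (k.strictMono h1)

lemma weak {k : ℝ ≃o ℝ} (h : Pos k) : ∀ᶠ x in atBot, x ≤ k x := by
  rcases h with h | ⟨a, h1, -⟩
  · exact h.mono fun x hx => hx.le
  · filter_upwards [eventually_le_atBot a] with x hx
    exact (h1 x hx).ge

/-- weak inequality near a point which is not to the right of the left end of the support -/
lemma weak' {k : ℝ ≃o ℝ} {a b : ℝ} (h1 : ∀ x ≤ a, k x = x) (h2 : ∀ᶠ x in 𝓝[>] a, x < k x)
    (hb : b ≤ a) : ∀ᶠ x in 𝓝[>] b, x ≤ k x := by
  rcases eq_or_lt_of_le hb with rfl | hb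
  · exact h2.mono fun x hx => hx.le
  · filter_upwards [Ioo_mem_nhdsGT hb] with x hx
    exact (h1 x hx.2.le).ge

lemma mul {k k' : ℝ ≃o ℝ} (hk : Pos k) (hk' : Pos k') : Pos (k * k') := by
  have w := weak hk
  have w' := weak hk'
  rcases hk with h | ⟨a, h1, h2⟩
  · exact Or.inl (up w w' (Or.inl h))
  · rcases hk' with h' | ⟨a', h1', h2'⟩
    · exact Or.inl (up w w' (Or.inr h'))
    · right
      rcases le_total a a' with haa | haa
      · refine ⟨a, fun x hx => ?_, ?_⟩
        · have e1 : k' x = x := h1' x (hx.trans haa)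
          have e2 : (k * k') x = k (k' x) := rfl
          rw [e2, e1, h1 x hx]
        · exact up (h2.mono fun x hx => hx.le) (weak' h1' h2' haa) (Or.inl h2)
      · refine ⟨a', fun x hx => ?_, ?_⟩
        · have e1 : k' x = x := h1' x hx
          have e2 : (k * k') x = k (k' x) := rfl
          rw [e2, e1, h1 x (hx.trans haa)]
        · exact up (weak' h1 h2 haa) (h2'.mono fun x hx => hx.le) (Or.inr h2')

lemma conj (u : ℝ ≃o ℝ) {k : ℝ ≃o ℝ} (hk : Pos k) : Pos (u * k * u⁻¹) := by
  have e : ∀ x, (u * k * u⁻¹) x = u (k (u.symm x)) := fun x => rfl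
  have key : ∀ x, u.symm x < k (u.symm x) → x < (u * k * u⁻¹) x := by
    intro x hx
    have h := u.strictMono hx
    rw [u.apply_symm_apply] at h
    rw [e]
    exact h
  rcases hk with h | ⟨a, h1, h2⟩
  · left
    have ht : Tendsto (u.symm : ℝ → ℝ) atBot atBot := u.symm.tendsto_atBot
    filter_upwards [ht.eventually h] with x hx
    exact key x hx
  · right
    refine ⟨u a, fun x hx => ?_, ?_⟩
    · have hx' : u.symm x ≤ a := by
        have := u.symm.monotone hx
        rwa [u.symm_apply_apply] at this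
      rw [e, h1 _ hx', u.apply_symm_apply]
    · have ht : Tendsto (u.symm : ℝ → ℝ) (𝓝[>] (u a)) (𝓝[>] a) := by
        refine tendsto_nhdsWithin_iff.2 ⟨?_, ?_⟩
        · have hc : Tendsto (u.symm : ℝ → ℝ) (𝓝 (u a)) (𝓝 (u.symm (u a))) :=
            u.symm.continuous.tendsto (u a)
          rw [u.symm_apply_apply] at hc
          exact hc.mono_left nhdsWithin_le_nhds
        · filter_upwards [self_mem_nhdsWithin] with x hx
          have := u.symm.strictMono (show u a < x from hx)
          rwa [u.symm_apply_apply] at this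
      filter_upwards [ht.eventually h2] with x hx
      exact key x hx

lemma one : ¬Pos 1 := by
  have h0 : ∀ x : ℝ, ¬ x < (1 : ℝ ≃o ℝ) x := fun x hx => lt_irrefl x hx
  rintro (h | ⟨a, -, h⟩)
  · obtain ⟨x, hx⟩ := h.exists
    exact h0 x hx
  · obtain ⟨x, hx⟩ := h.exists
    exact h0 x hx

end CON

theorem t_CON : s_CON :=
  ⟨fun _ _ hk hk' => CON.mul hk hk', fun u _ hk => CON.conj u hk, CON.one⟩

end Pool.Agent.PPR
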