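import Pool.Agent.PPR.St

/-!
# Module EXI (helper85): germs of piecewise projective homeomorphisms exist
-/

set_option autoImplicit false

namespace Pool.Agent.PPR

open Filter Topology Matrix

namespace EXI

/-- a matrix with nonzero determinant has at most one pole -/
lemma pole_finite (M : Matrix (Fin 2) (Fin 2) ℝ) (h : M.det ≠ 0) :
    {x : ℝ | M 1 0 * x + M 1 1 = 0}.Finite := by
  apply Set.Subsingleton.finite
  intro x hx y hy
  simp only [Set.mem_ofPred_eq] at hx hy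
  by_contra hne
  have h1 : M 1 0 * (x - y) = 0 := by linear_combination hx - hy
  have h2 : M 1 0 = 0 := (mul_eq_zero.1 h1).resolve_right (sub_ne_zero.2 hne)
  have h3 : M 1 1 = 0 := by
    rw [h2] at hx
    linarith
  apply h
  rw [Matrix.det_fin_two, h2, h3]
  ring

/-- small intervals -/
lemma exists_interval {l : Filter ℝ} (hl : IsEnd l) {s : Set ℝ} (hs : s ∈ l) :
    ∃ I ∈ l, I ⊆ s ∧ IsPreconnected I ∧ I.Nonempty := by
  rcases hl with rfl | ⟨a, rfl⟩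
  · obtain ⟨a, ha⟩ := mem_atBot_sets.1 hs
    exact ⟨Set.Iic a, Iic_mem_atBot a, fun x hx => ha x hx, isPreconnected_Iic, ⟨a, Set.mem_Iic.2 le_rfl⟩⟩
  · obtain ⟨u, hu, h⟩ := mem_nhdsGT_iff_exists_Ioo_subset.1 hs
    exact ⟨Set.Ioo a u, Ioo_mem_nhdsGT hu, h, isPreconnected_Ioo, Set.nonempty_Ioo.2 hu⟩

lemma le_cof {l : Filter ℝ} (hl : IsEnd l) : l ≤ cofinite := by
  rcases hl with rfl | ⟨a, rfl⟩
  · exact atBot_le_cofinite
  · exact (nhdsWithin_mono a (fun x hx => ne_of_gt hx)).trans (nhdsNE_le_cofinite a)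

/-- the set of the points where `f` has the value of `M` -/
def Z (f : ℝ → ℝ) (M : Matrix (Fin 2) (Fin 2) ℝ) : Set ℝ :=
  {x | f x * (M 1 0 * x + M 1 1) = M 0 0 * x + M 0 1}

lemma Z_closed {f : ℝ → ℝ} (hf : Continuous f) (M : Matrix (Fin 2) (Fin 2) ℝ) :
    IsClosed (Z f M) :=
  isClosed_eq (by fun_prop) (by fun_prop)

lemma mem_Z {f : ℝ → ℝ} {M : Matrix (Fin 2) (Fin 2) ℝ} {x : ℝ} (h : M 1 0 * x + M 1 1 ≠ 0) :
    x ∈ Z f M ↔ f x = mob M x := by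
  unfold Z mob
  rw [eq_div_iff h]
  rfl

end EXI

open EXI in
theorem t_EXI (hMOB : s_MOB) : s_EXI := by
  intro f S hS hdet hf l hl
  obtain ⟨-, -, hM3⟩ := hMOB
  obtain ⟨B, hBdef⟩ : ∃ B : Set ℝ, B = (⋃ M ∈ S, {x : ℝ | M 1 0 * x + M 1 1 = 0}) ∪
      ⋃ M ∈ S, ⋃ N ∈ S, {x : ℝ | (¬ ∃ c : ℝ, c ≠ 0 ∧ N = c • M) ∧ M 1 0 * x + M 1 1 ≠ 0 ∧
        N 1 0 * x + N 1 1 ≠ 0 ∧ mob M x = mob N x} := ⟨_, rfl⟩
  have hB : B.Finite := by
    rw [hBdef]
    refine (hS.biUnion fun M hM => pole_finite M (hdet M hM)).union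
      (hS.biUnion fun M hM => hS.biUnion fun N hN => ?_)
    by_cases hp : ∃ c : ℝ, c ≠ 0 ∧ N = c • M
    · exact Set.finite_empty.subset fun x hx => (hx.1 hp).elim
    · by_contra hinf
      exact hp (hM3 M N (hdet M hM) (hdet N hN) (Set.Infinite.mono (fun x hx => hx.2) hinf))
  have hBc : Bᶜ ∈ l := le_cof hl hB.compl_mem_cofinite
  obtain ⟨I, hIl, hIB, hI, x₀, hx₀⟩ := exists_interval hl hBc
  -- no poles and no coincidences in `I`
  have hpole : ∀ x ∈ I, ∀ M ∈ S, M 1 0 * x + M 1 1 ≠ 0 := by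
    intro x hx M hM h
    apply hIB hx
    rw [hBdef]
    exact Or.inl (Set.mem_biUnion hM h)
  have hcoin : ∀ x ∈ I, ∀ M ∈ S, ∀ N ∈ S, mob M x = mob N x → ∃ c : ℝ, c ≠ 0 ∧ N = c • M := by
    intro x hx M hM N hN h
    by_contra hp
    apply hIB hx
    rw [hBdef]
    exact Or.inr (Set.mem_biUnion hM (Set.mem_biUnion hN
      ⟨hp, hpole x hx M hM, hpole x hx N hN, h⟩))
  obtain ⟨M, hM, hM1, hM2⟩ := hf x₀
  have hfc : Continuous (f : ℝ → ℝ) := f.continuous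
  -- the other matrices
  obtain ⟨t, ht⟩ : ∃ t : Set ℝ, t = ⋃ N ∈ {N | N ∈ S ∧ ¬ ∃ c : ℝ, c ≠ 0 ∧ N = c • M}, Z f N :=
    ⟨_, rfl⟩
  have htc : IsClosed t := by
    rw [ht]
    exact (hS.subset fun N hN => hN.1).isClosed_biUnion fun N _ => Z_closed hfc N
  have hcov : I ⊆ Z f M ∪ t := by
    intro x hx
    obtain ⟨N, hN, hN1, hN2⟩ := hf x
    by_cases hp : ∃ c : ℝ, c ≠ 0 ∧ N = c • M
    · left
      obtain ⟨c, hc, rfl⟩ := hp
      have h1 := (mem_Z hN1).2 hN2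
      unfold Z at h1 ⊢
      simp only [Set.mem_ofPred_eq, Matrix.smul_apply, smul_eq_mul] at h1 ⊢
      have h2 : c * (f x * (M 1 0 * x + M 1 1) - (M 0 0 * x + M 0 1)) = 0 := by
        linear_combination h1
      exact sub_eq_zero.1 ((mul_eq_zero.1 h2).resolve_left hc)
    · right
      rw [ht]
      exact Set.mem_biUnion (show N ∈ {N | N ∈ S ∧ ¬ ∃ c : ℝ, c ≠ 0 ∧ N = c • M} from ⟨hN, hp⟩)
        ((mem_Z hN1).2 hN2)
  have hdis : ¬ (I ∩ (Z f M ∩ t)).Nonempty := by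
    rintro ⟨x, hx, h1, h2⟩
    rw [ht] at h2
    obtain ⟨N, hN, h3⟩ := Set.mem_iUnion₂.1 h2
    apply hN.2
    refine hcoin x hx M hM N hN.1 ?_
    rw [← (mem_Z (hpole x hx M hM)).1 h1, (mem_Z (hpole x hx N hN.1)).1 h3]
  have hall : I ⊆ Z f M := by
    intro x hx
    rcases hcov hx with h | h
    · exact h
    · exact absurd (isPreconnected_closed_iff.1 hI (Z f M) t (Z_closed hfc M) htc hcov
        ⟨x₀, hx₀, (mem_Z hM1).2 hM2⟩ ⟨x, hx, h⟩) hdis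
  refine ⟨M, hM, hdet M hM, ?_⟩
  filter_upwards [hIl] with x hx
  exact ⟨hpole x hx M hM, (mem_Z (hpole x hx M hM)).1 (hall hx)⟩

end Pool.Agent.PPR
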