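import Pool.Agent.PPR.St

/-!
# PPR, module GEN: germs for finitely generated groups
-/

set_option autoImplicit false

namespace Pool.Agent.PPR

open Filter Topology Matrix

/-- GEN -/
theorem t_GEN (hEXI : s_EXI) (hCOM : s_COM) (_hGRP : s_GRP) : s_GEN := by
  intro G₀ hFG hPP
  obtain ⟨A, hA⟩ := hFG
  have hS : ∀ f : ℝ ≃o ℝ, ∃ S : Set (Matrix (Fin 2) (Fin 2) ℝ), S.Finite ∧
      (∀ M ∈ S, M.det ≠ 0) ∧ (f ∈ G₀ → ∀ x, ∃ M ∈ S, M 1 0 * x + M 1 1 ≠ 0 ∧ f x = mob M x) := by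
    intro f
    by_cases hf : f ∈ G₀
    · obtain ⟨S, h1, h2, h3⟩ := hPP f hf
      exact ⟨S, h1, h2, fun _ => h3⟩
    · exact ⟨∅, Set.finite_empty, fun M hM => absurd hM (Set.notMem_empty M),
        fun h => absurd h hf⟩
  choose S hS1 hS2 hS3 using hS
  obtain ⟨T, hT⟩ : ∃ T : Set (Matrix (Fin 2) (Fin 2) ℝ),
      T = ⋃ f ∈ (A : Set (ℝ ≃o ℝ)), (S f ∪ S f⁻¹) := ⟨_, rfl⟩
  have hAG : ∀ f ∈ A, f ∈ G₀ := fun f hf => hA ▸ Subgroup.subset_closure hf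
  have hsub1 : ∀ f ∈ A, S f ⊆ T := fun f hf M hM => by
    rw [hT]
    exact Set.mem_biUnion hf (Or.inl hM)
  have hsub2 : ∀ f ∈ A, S f⁻¹ ⊆ T := fun f hf M hM => by
    rw [hT]
    exact Set.mem_biUnion hf (Or.inr hM)
  refine ⟨T, ?_, ?_, ?_⟩
  · rw [hT]
    exact A.finite_toSet.biUnion fun f _ => (hS1 f).union (hS1 f⁻¹)
  · intro M hM
    rw [hT] at hM
    obtain ⟨f, -, hf⟩ := Set.mem_iUnion₂.1 hM
    rcases hf with hf | hf
    · exact hS2 f M hf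
    · exact hS2 f⁻¹ M hf
  · intro f hf
    rw [← hA] at hf
    induction hf using Subgroup.closure_induction'' with
    | mem x hx =>
      intro l hl
      obtain ⟨M, hM, hG⟩ := hEXI x (S x) (hS1 x) (hS2 x) (hS3 x (hAG x hx)) l hl
      exact ⟨M, Submonoid.subset_closure (hsub1 x hx hM), hG⟩
    | inv_mem x hx =>
      intro l hl
      obtain ⟨M, hM, hG⟩ := hEXI x⁻¹ (S x⁻¹) (hS1 x⁻¹) (hS2 x⁻¹)
        (hS3 x⁻¹ (inv_mem (hAG x hx))) l hl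
      exact ⟨M, Submonoid.subset_closure (hsub2 x hx hM), hG⟩
    | one =>
      intro l _
      exact ⟨1, Submonoid.one_mem _, hCOM.2.1 l⟩
    | mul x y _ _ ihx ihy =>
      intro l hl
      obtain ⟨M, hM, hGM⟩ := ihx (map y l) (hCOM.2.2.2.2 y l hl)
      obtain ⟨N, hN, hGN⟩ := ihy l hl
      exact ⟨M * N, Submonoid.mul_mem _ hM hN, hCOM.1 x y l M N hGM hGN⟩

end Pool.Agent.PPR
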