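import Pool.Agent.PPR.St

/-!
# The piecewise projective maps are a group
-/

set_option autoImplicit false

namespace Pool.Agent.PPR

open Filter Topology Matrix

theorem t_GRP (hMOB : s_MOB) : s_GRP := by
  obtain ⟨h1, h2, -⟩ := hMOB
  refine ⟨⟨{1}, Set.finite_singleton _, ?_, ?_⟩, ?_, ?_⟩
  · rintro M rfl
    rw [Matrix.det_one]
    exact one_ne_zero
  · intro x
    refine ⟨1, rfl, ?_, ?_⟩
    · simp
    · simp [mob]
  · rintro f g ⟨S, hS, hSd, hSx⟩ ⟨T, hT, hTd, hTx⟩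
    refine ⟨Set.image2 (· * ·) S T, hS.image2 _ hT, ?_, ?_⟩
    · rintro _ ⟨M, hM, N, hN, rfl⟩
      show (M * N).det ≠ 0
      rw [Matrix.det_mul]
      exact mul_ne_zero (hSd M hM) (hTd N hN)
    · intro x
      obtain ⟨N, hN, hN0, hNx⟩ := hTx x
      obtain ⟨M, hM, hM0, hMx⟩ := hSx (g x)
      rw [hNx] at hM0 hMx
      obtain ⟨k1, k2⟩ := h1 M N x hN0 hM0
      refine ⟨M * N, Set.mem_image2_of_mem hM hN, k1, ?_⟩
      show f (g x) = mob (M * N) x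
      rw [k2, hNx, hMx]
  · rintro f ⟨S, hS, hSd, hSx⟩
    refine ⟨Matrix.adjugate '' S, hS.image _, ?_, ?_⟩
    · rintro _ ⟨M, hM, rfl⟩
      rw [Matrix.det_adjugate]
      exact pow_ne_zero _ (hSd M hM)
    · intro y
      obtain ⟨M, hM, hM0, hMx⟩ := hSx (f⁻¹ y)
      obtain ⟨k1, k2⟩ := h2 M (f⁻¹ y) (hSd M hM) hM0
      have h3 : f (f⁻¹ y) = y := f.apply_symm_apply y
      rw [← hMx, h3] at k1 k2
      exact ⟨M.adjugate, Set.mem_image_of_mem _ hM, k1, k2.symm⟩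

end Pool.Agent.PPR
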