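import Pool.Agent.PPR.St

/-!
MOB: the algebra of fractional linear maps.
-/

set_option autoImplicit false

namespace Pool.Agent.PPR.MOB

open Pool.Agent.PPR

theorem part1 (M N : Matrix (Fin 2) (Fin 2) ℝ) (x : ℝ) (hN : N 1 0 * x + N 1 1 ≠ 0)
    (hM : M 1 0 * mob N x + M 1 1 ≠ 0) :
    (M * N) 1 0 * x + (M * N) 1 1 ≠ 0 ∧ mob (M * N) x = mob M (mob N x) := by
  have h1 : (M * N) 1 0 * x + (M * N) 1 1 =
      (N 1 0 * x + N 1 1) * (M 1 0 * mob N x + M 1 1) := by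
    simp only [Matrix.mul_apply, Fin.sum_univ_two, mob]
    field_simp
    ring
  have h2 : (M * N) 0 0 * x + (M * N) 0 1 =
      (N 1 0 * x + N 1 1) * (M 0 0 * mob N x + M 0 1) := by
    simp only [Matrix.mul_apply, Fin.sum_univ_two, mob]
    field_simp
    ring
  refine ⟨by rw [h1]; exact mul_ne_zero hN hM, ?_⟩
  have h3 : mob (M * N) x = ((M * N) 0 0 * x + (M * N) 0 1) / ((M * N) 1 0 * x + (M * N) 1 1) :=
    rfl
  rw [h3, h1, h2, mul_div_mul_left _ _ hN]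
  rfl

theorem part2 (M : Matrix (Fin 2) (Fin 2) ℝ) (x : ℝ) (hD : M.det ≠ 0)
    (hM : M 1 0 * x + M 1 1 ≠ 0) :
    M.adjugate 1 0 * mob M x + M.adjugate 1 1 ≠ 0 ∧ mob M.adjugate (mob M x) = x := by
  rw [Matrix.det_fin_two] at hD
  have a00 : M.adjugate 0 0 = M 1 1 := by rw [Matrix.adjugate_fin_two]; rfl
  have a01 : M.adjugate 0 1 = -M 0 1 := by rw [Matrix.adjugate_fin_two]; rfl
  have a10 : M.adjugate 1 0 = -M 1 0 := by rw [Matrix.adjugate_fin_two]; rfl
  have a11 : M.adjugate 1 1 = M 0 0 := by rw [Matrix.adjugate_fin_two]; rfl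
  have h1 : M.adjugate 1 0 * mob M x + M.adjugate 1 1 =
      (M 0 0 * M 1 1 - M 0 1 * M 1 0) / (M 1 0 * x + M 1 1) := by
    rw [a10, a11]
    simp only [mob]
    field_simp
    ring
  have h2 : M.adjugate 0 0 * mob M x + M.adjugate 0 1 =
      (M 0 0 * M 1 1 - M 0 1 * M 1 0) * x / (M 1 0 * x + M 1 1) := by
    rw [a00, a01]
    simp only [mob]
    rw [eq_div_iff hM, add_mul, mul_assoc, div_mul_cancel₀ _ hM]
    ring
  refine ⟨by rw [h1]; exact div_ne_zero hD hM, ?_⟩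
  have h3 : mob M.adjugate (mob M x) = (M.adjugate 0 0 * mob M x + M.adjugate 0 1) /
      (M.adjugate 1 0 * mob M x + M.adjugate 1 1) := rfl
  rw [h3, h1, h2]
  field_simp

/-- the coefficients of a polynomial of degree at most two with infinitely many zeros -/
theorem coeffs {p q r : ℝ} (h : {x : ℝ | p * x ^ 2 + q * x + r = 0}.Infinite) :
    p = 0 ∧ q = 0 ∧ r = 0 := by
  have h0 : (Polynomial.C p * Polynomial.X ^ 2 + Polynomial.C q * Polynomial.X +
      Polynomial.C r : Polynomial ℝ) = 0 := by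
    refine Polynomial.eq_zero_of_infinite_isRoot _ (h.mono ?_)
    intro x hx
    simp only [Set.mem_ofPred_eq] at hx
    simp only [Set.mem_ofPred_eq, Polynomial.IsRoot.def, Polynomial.eval_add, Polynomial.eval_mul,
      Polynomial.eval_C, Polynomial.eval_pow, Polynomial.eval_X]
    exact hx
  have h1 := congrArg (Polynomial.eval 0) h0
  have h2 := congrArg (Polynomial.eval 1) h0
  have h3 := congrArg (Polynomial.eval (-1)) h0
  simp only [Polynomial.eval_add, Polynomial.eval_mul, Polynomial.eval_C, Polynomial.eval_pow,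
    Polynomial.eval_X, Polynomial.eval_zero] at h1 h2 h3
  refine ⟨by linarith, by linarith, by linarith⟩

theorem part3 (M N : Matrix (Fin 2) (Fin 2) ℝ) (hM : M.det ≠ 0) (hN : N.det ≠ 0)
    (h : {x : ℝ | M 1 0 * x + M 1 1 ≠ 0 ∧ N 1 0 * x + N 1 1 ≠ 0 ∧ mob M x = mob N x}.Infinite) :
    ∃ c : ℝ, c ≠ 0 ∧ N = c • M := by
  have h0 : {x : ℝ | (M 0 0 * N 1 0 - N 0 0 * M 1 0) * x ^ 2 +
      (M 0 0 * N 1 1 + M 0 1 * N 1 0 - N 0 0 * M 1 1 - N 0 1 * M 1 0) * x +
      (M 0 1 * N 1 1 - N 0 1 * M 1 1) = 0}.Infinite := by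
    refine h.mono ?_
    rintro x ⟨h1, h2, h3⟩
    simp only [mob] at h3
    rw [div_eq_div_iff h1 h2] at h3
    simp only [Set.mem_ofPred_eq]
    linear_combination h3
  obtain ⟨e1, e2, e3⟩ := coeffs h0
  rw [Matrix.det_fin_two] at hM
  have k1 : M 0 0 * N 1 1 - N 0 0 * M 1 1 = 0 := by
    have : (M 0 0 * M 1 1 - M 0 1 * M 1 0) * (M 0 0 * N 1 1 - N 0 0 * M 1 1) = 0 := by
      linear_combination (M 0 0 * M 1 1) * e2 - (M 0 1 * M 1 1) * e1 - (M 0 0 * M 1 0) * e3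
    exact (mul_eq_zero.1 this).resolve_left hM
  have k2 : M 0 1 * N 1 0 - N 0 1 * M 1 0 = 0 := by linear_combination e2 - k1
  have k3 : N 0 1 * M 0 0 - N 0 0 * M 0 1 = 0 := by
    have : (M 0 0 * M 1 1 - M 0 1 * M 1 0) * (N 0 1 * M 0 0 - N 0 0 * M 0 1) = 0 := by
      linear_combination (M 0 0 * M 0 1) * k1 - (M 0 0 ^ 2) * e3 + (M 0 0 * M 0 1) * k2 -
        (M 0 1 ^ 2) * e1
    exact (mul_eq_zero.1 this).resolve_left hM
  have k4 : N 1 0 * M 1 1 - N 1 1 * M 1 0 = 0 := by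
    have : (M 0 0 * M 1 1 - M 0 1 * M 1 0) * (N 1 0 * M 1 1 - N 1 1 * M 1 0) = 0 := by
      linear_combination (M 1 1 ^ 2) * e1 - (M 1 0 * M 1 1) * k1 - (M 1 0 * M 1 1) * k2 +
        (M 1 0 ^ 2) * e3
    exact (mul_eq_zero.1 this).resolve_left hM
  have key : N = ((N 0 0 * M 1 1 - N 0 1 * M 1 0) / (M 0 0 * M 1 1 - M 0 1 * M 1 0)) • M := by
    ext i j
    rw [Matrix.smul_apply, smul_eq_mul, div_mul_eq_mul_div, eq_div_iff hM]
    fin_cases i <;> fin_cases j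
    · show N 0 0 * _ = _ * M 0 0
      linear_combination (M 1 0) * k3
    · show N 0 1 * _ = _ * M 0 1
      linear_combination (M 1 1) * k3
    · show N 1 0 * _ = _ * M 1 0
      linear_combination (M 1 1) * e1 - (M 1 0) * k2
    · show N 1 1 * _ = _ * M 1 1
      linear_combination (M 1 1) * k1 - (M 1 0) * e3
  refine ⟨_, ?_, key⟩
  intro h0
  rw [h0, zero_smul] at key
  rw [key] at hN
  exact hN (by simp)

end Pool.Agent.PPR.MOB

namespace Pool.Agent.PPR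

/-- **MOB** -/
theorem t_MOB : s_MOB := ⟨MOB.part1, MOB.part2, MOB.part3⟩

end Pool.Agent.PPR
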