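import Pool.Agent.PPR.St

/-!
# The representations of the centralisers (module REP)
-/

set_option autoImplicit false

namespace Pool.Agent.PPR

open Filter Topology Matrix

namespace REP

/-- the entries of the matrices and of their inverses -/
def ent (T : Set (Matrix (Fin 2) (Fin 2) ℝ)) : Set ℝ :=
  (⋃ M ∈ T, Set.range fun p : Fin 2 × Fin 2 => M p.1 p.2) ∪
    ⋃ M ∈ T, Set.range fun p : Fin 2 × Fin 2 => M⁻¹ p.1 p.2

lemma ent_finite {T : Set (Matrix (Fin 2) (Fin 2) ℝ)} (hT : T.Finite) : (ent T).Finite :=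
  (hT.biUnion fun _ _ => Set.finite_range _).union (hT.biUnion fun _ _ => Set.finite_range _)

lemma ent_closure {T : Set (Matrix (Fin 2) (Fin 2) ℝ)} (hT : ∀ M ∈ T, M.det ≠ 0)
    {M : Matrix (Fin 2) (Fin 2) ℝ} (hM : M ∈ Submonoid.closure T) :
    M.det ≠ 0 ∧ (∀ i j, M i j ∈ Subring.closure (ent T)) ∧
      ∀ i j, M⁻¹ i j ∈ Subring.closure (ent T) := by
  induction hM using Submonoid.closure_induction with
  | mem M hM =>
    refine ⟨hT M hM, fun i j => Subring.subset_closure (Or.inl ?_),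
      fun i j => Subring.subset_closure (Or.inr ?_)⟩
    · exact Set.mem_biUnion hM ⟨(i, j), rfl⟩
    · exact Set.mem_biUnion hM ⟨(i, j), rfl⟩
  | one =>
    have h : ∀ i j : Fin 2, (1 : Matrix (Fin 2) (Fin 2) ℝ) i j ∈ Subring.closure (ent T) := by
      intro i j
      rw [Matrix.one_apply]
      split_ifs
      · exact Subring.one_mem _
      · exact Subring.zero_mem _
    refine ⟨?_, h, ?_⟩
    · rw [Matrix.det_one]
      exact one_ne_zero
    · rw [inv_one]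
      exact h
  | mul M N _ _ h1 h2 =>
    refine ⟨?_, fun i j => ?_, fun i j => ?_⟩
    · rw [Matrix.det_mul]
      exact mul_ne_zero h1.1 h2.1
    · rw [Matrix.mul_apply]
      exact Subring.sum_mem _ fun k _ => Subring.mul_mem _ (h1.2.1 i k) (h2.2.1 k j)
    · rw [Matrix.mul_inv_rev, Matrix.mul_apply]
      exact Subring.sum_mem _ fun k _ => Subring.mul_mem _ (h2.2.2 i k) (h1.2.2 k j)

lemma lt_pow (g : ℝ ≃o ℝ) (x : ℝ) (h : x < g x) (k : ℕ) : x < (g ^ (k + 1)) x := by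
  induction k with
  | zero => simpa using h
  | succ k ih =>
    have h1 : (g ^ (k + 1 + 1)) x = (g ^ (k + 1)) (g x) := by
      rw [pow_succ]
      rfl
    rw [h1]
    exact ih.trans ((g ^ (k + 1)).strictMono h)

lemma pow_lt (g : ℝ ≃o ℝ) (x : ℝ) (h : g x < x) (k : ℕ) : (g ^ (k + 1)) x < x := by
  induction k with
  | zero => simpa using h
  | succ k ih =>
    have h1 : (g ^ (k + 1 + 1)) x = (g ^ (k + 1)) (g x) := by
      rw [pow_succ]
      rfl
    rw [h1]
    exact ((g ^ (k + 1)).strictMono h).trans ih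

lemma fix_of_pow (g : ℝ ≃o ℝ) (x : ℝ) (k : ℕ) (hk : 0 < k) (h : (g ^ k) x = x) : g x = x := by
  obtain ⟨k, rfl⟩ : ∃ j, k = j + 1 := ⟨k - 1, by omega⟩
  rcases lt_trichotomy (g x) x with h1 | h1 | h1
  · exact absurd h (pow_lt g x h1 k).ne
  · exact h1
  · exact absurd h (lt_pow g x h1 k).ne'

end REP

open REP in
/-- REP: the representations of the centralisers. -/
theorem t_REP (hGEN : s_GEN) (hCOM : s_COM) (hADJ : s_ADJ) (hSUP : s_SUP) : s_REP := by
  intro G₀ hfg hPP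
  obtain ⟨T, hTf, hTd, hT⟩ := hGEN G₀ hfg hPP
  obtain ⟨c1, c2, c3, -, -⟩ := hCOM
  obtain ⟨a1, a2, a3, a4, a5⟩ := hADJ
  refine ⟨ent T, ent_finite hTf, fun g hg => ?_⟩
  have hg' : (g : ℝ ≃o ℝ) ≠ 1 := fun h => hg (Subtype.ext h)
  obtain ⟨l, hl, hng, -, hcomm⟩ := hSUP (g : ℝ ≃o ℝ) hg'
  have hmap : ∀ z : Subgroup.centralizer {g}, map ((z : G₀) : ℝ ≃o ℝ) l = l := by
    intro z
    apply hcomm
    have h1 := Subgroup.mem_centralizer_singleton_iff.1 z.2
    have h2 := congrArg (fun w : G₀ => (w : ℝ ≃o ℝ)) h1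
    exact h2
  -- germs
  choose M hM hMg using fun z : Subgroup.centralizer {g} =>
    hT ((z : G₀) : ℝ ≃o ℝ) (z : G₀).2 l hl
  have huniq : ∀ (f : ℝ → ℝ) (A B : Matrix (Fin 2) (Fin 2) ℝ), Ger f l A → Ger f l B →
      Ad A = Ad B := by
    intro f A B hA hB
    obtain ⟨c, hc, rfl⟩ := c3 f l A B hl hA hB
    exact (a3 A c hA.1 hc).symm
  have hone : Ad (M 1) = 1 := by
    rw [← a1]
    exact huniq _ _ _ (hMg 1) (c2 l)
  have hmul : ∀ z z' : Subgroup.centralizer {g}, Ad (M (z * z')) = Ad (M z) * Ad (M z') := by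
    intro z z'
    rw [← a2 (M z) (M z') (hMg z).1 (hMg z').1]
    refine huniq _ _ _ (hMg (z * z')) ?_
    refine c1 ((z : G₀) : ℝ ≃o ℝ) ((z' : G₀) : ℝ ≃o ℝ) l (M z) (M z') ?_ (hMg z')
    rw [hmap z']
    exact hMg z
  let α : Subgroup.centralizer {g} →* Matrix (Fin 2 × Fin 2) (Fin 2 × Fin 2) ℝ :=
    { toFun := fun z => Ad (M z)
      map_one' := hone
      map_mul' := hmul }
  let e : Fin 2 × Fin 2 ≃ Fin 4 := finProdFinEquiv
  let β : Matrix (Fin 2 × Fin 2) (Fin 2 × Fin 2) ℝ ≃ₐ[ℝ] Matrix (Fin 4) (Fin 4) ℝ :=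
    Matrix.reindexAlgEquiv ℝ ℝ e
  let ρ : Subgroup.centralizer {g} →* Matrix (Fin 4) (Fin 4) ℝ :=
    { toFun := fun z => β (α z)
      map_one' := by rw [map_one, map_one]
      map_mul' := fun z z' => by rw [map_mul, map_mul] }
  refine ⟨ρ, fun z i j => ?_, ?_⟩
  · show Ad (M z) (e.symm i) (e.symm j) ∈ _
    rw [a5]
    obtain ⟨-, h1, h2⟩ := ent_closure hTd (hM z)
    exact Subring.mul_mem _ (h1 _ _) (h2 _ _)
  · intro hfin
    obtain ⟨k, hk, h1⟩ := isOfFinOrder_iff_pow_eq_one.1 hfin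
    set γ : Subgroup.centralizer {g} := ⟨g, Subgroup.mem_centralizer_singleton_iff.2 rfl⟩ with hγ
    rw [← map_pow] at h1
    have h2 : α (γ ^ k) = 1 := by
      apply β.injective
      rw [map_one]
      exact h1
    obtain ⟨c, hc, h3⟩ := a4 (M (γ ^ k)) (hMg (γ ^ k)).1 h2
    apply hng
    have h4 := (hMg (γ ^ k)).2
    rw [h3] at h4
    filter_upwards [h4] with x hx
    have h5 : mob (c • (1 : Matrix (Fin 2) (Fin 2) ℝ)) x = x := by
      unfold mob
      simp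
      field_simp
    have h6 : ((((γ ^ k : Subgroup.centralizer {g}) : G₀) : ℝ ≃o ℝ)) = (g : ℝ ≃o ℝ) ^ k := by
      rw [Subgroup.coe_pow, Subgroup.coe_pow]
    rw [h6, h5] at hx
    exact fix_of_pow _ x k hk hx.2

end Pool.Agent.PPR
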