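import Pool.Agent.PPR.St

/-!
# PPR, module SGN: the sign of a continuous function near an end
-/

set_option autoImplicit false

namespace Pool.Agent.PPR

open Filter Topology Matrix

theorem t_SGN : s_SGN := by
  intro φ hφ l hl h
  have key : ∃ I : Set ℝ, I ∈ l ∧ IsPreconnected I ∧ ∀ x ∈ I, φ x ≠ 0 := by
    rcases hl with rfl | ⟨a, rfl⟩
    · obtain ⟨b, hb⟩ := eventually_atBot.1 h
      exact ⟨Set.Iic b, Iic_mem_atBot b, isPreconnected_Iic, fun x hx => hb x hx⟩
    · obtain ⟨b, hab, hb⟩ := mem_nhdsGT_iff_exists_Ioo_subset.1 h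
      exact ⟨Set.Ioo a b, Ioo_mem_nhdsGT hab, isPreconnected_Ioo, fun x hx => hb hx⟩
  obtain ⟨I, hI, hc, h0⟩ := key
  by_cases hp : ∀ x ∈ I, 0 < φ x
  · exact Or.inl (mem_of_superset hI hp)
  · push Not at hp
    obtain ⟨x, hx, hx0⟩ := hp
    right
    refine mem_of_superset hI fun y hy => ?_
    by_contra hy'
    have hy0 : 0 ≤ φ y := not_lt.1 hy'
    obtain ⟨z, hz, hz0⟩ := hc.intermediate_value hx hy hφ.continuousOn ⟨hx0, hy0⟩
    exact h0 z hz hz0

end Pool.Agent.PPR
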