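import Pool.Agent.PPR.St

/-!
# SUP: the left end of the support (helper20)
-/

set_option autoImplicit false

namespace Pool.Agent.PPR

open Filter Topology

namespace SUP

/-- order isomorphisms map right neighbourhoods to right neighbourhoods -/
lemma map_nhdsGT (h : ℝ ≃o ℝ) (a : ℝ) : map h (𝓝[>] a) = 𝓝[>] (h a) := by
  have h1 := h.toHomeomorph.isEmbedding.map_nhdsWithin_eq (Set.Ioi a) a
  have h2 : (h.toHomeomorph : ℝ → ℝ) = h := rfl
  rw [h2, OrderIso.image_Ioi] at h1
  exact h1

/-- the support is open -/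
lemma isOpen_supp (g : ℝ ≃o ℝ) : IsOpen {x : ℝ | g x ≠ x} :=
  isOpen_ne_fun g.continuous continuous_id

/-- maps which commute with `g` preserve the support of `g` -/
lemma image_supp (g h : ℝ ≃o ℝ) (hc : h * g = g * h) :
    h '' {x : ℝ | g x ≠ x} = {x : ℝ | g x ≠ x} := by
  have h1 : ∀ x, h (g x) = g (h x) := fun x => by
    have := congrArg (fun k : ℝ ≃o ℝ => k x) hc
    simpa using this
  ext y
  constructor
  · rintro ⟨x, hx, rfl⟩
    intro h2
    rw [← h1] at h2
    exact hx (h.injective h2)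
  · intro hy
    refine ⟨h.symm y, ?_, h.apply_symm_apply y⟩
    intro h2
    refine hy ?_
    have h3 := h1 (h.symm y)
    rw [h2, h.apply_symm_apply] at h3
    exact h3.symm

end SUP

open SUP in
/-- **SUP** -/
theorem t_SUP : s_SUP := by
  intro g hg
  set U : Set ℝ := {x | g x ≠ x} with hU
  have hUne : U.Nonempty := by
    by_contra h
    rw [Set.not_nonempty_iff_eq_empty] at h
    refine hg ?_
    ext x
    by_contra hx
    have : x ∈ U := hx
    rw [h] at this
    exact this
  by_cases hb : BddBelow U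
  · have hlow : ∀ x, x < sInf U → g x = x := by
      intro x hx
      by_contra h1
      exact absurd (csInf_le hb (show x ∈ U from h1)) (not_le.2 hx)
    have haU : g (sInf U) = sInf U := by
      by_contra h1
      have h2 : U ∈ 𝓝 (sInf U) := (isOpen_supp g).mem_nhds h1
      obtain ⟨l, hl, h3⟩ := exists_Ioc_subset_of_mem_nhds h2 ⟨sInf U - 1, by linarith⟩
      have h4 : (l + sInf U) / 2 ∈ U := h3 ⟨by linarith, by linarith⟩
      exact h4 (hlow _ (by linarith))
    refine ⟨𝓝[>] (sInf U), Or.inr ⟨_, rfl⟩, ?_, Or.inr ⟨sInf U, rfl, ?_⟩, ?_⟩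
    · intro h1
      obtain ⟨b, hb1, hb2⟩ := mem_nhdsGT_iff_exists_Ioo_subset.1 h1
      obtain ⟨u, hu, hub⟩ := exists_lt_of_csInf_lt hUne hb1
      have h2 : sInf U ≤ u := csInf_le hb hu
      rcases h2.lt_or_eq with h3 | h3
      · exact hu (hb2 ⟨h3, hub⟩)
      · exact hu (h3 ▸ haU)
    · intro x hx
      rcases hx.lt_or_eq with h1 | h1
      · exact hlow x h1
      · rw [h1]; exact haU
    · intro h hc
      rw [map_nhdsGT, OrderIso.map_csInf' h hUne hb, image_supp g h hc]
  · refine ⟨atBot, Or.inl rfl, ?_, Or.inl rfl, fun h _ => h.map_atBot⟩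
    intro h1
    obtain ⟨b, hb1⟩ := eventually_atBot.1 h1
    refine hb ⟨b, fun x hx => ?_⟩
    by_contra h2
    exact hx (hb1 x (not_le.1 h2).le)

end Pool.Agent.PPR
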