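import Pool.Agent.PPR.St

/-!
# TRI: one of `k`, `k⁻¹` is positive
-/

set_option autoImplicit false

namespace Pool.Agent.PPR

open Filter Topology Matrix

namespace TRI

lemma mob_smul_one (c : ℝ) (hc : c ≠ 0) (x : ℝ) :
    mob (c • (1 : Matrix (Fin 2) (Fin 2) ℝ)) x = x := by
  unfold mob
  simp
  field_simp

lemma one_den (x : ℝ) : (1 : Matrix (Fin 2) (Fin 2) ℝ) 1 0 * x + (1 : Matrix (Fin 2) (Fin 2) ℝ) 1 1 ≠ 0 := by
  simp

lemma mob_one (x : ℝ) : mob (1 : Matrix (Fin 2) (Fin 2) ℝ) x = x := by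
  unfold mob
  simp

end TRI

theorem t_TRI (hMOB : s_MOB) (hEXI : s_EXI) (hSUP : s_SUP) (hSGN : s_SGN) (hCOM : s_COM) :
    s_TRI := by
  intro k hPP hk
  obtain ⟨l, hl, hne, hlft, hcomm⟩ := hSUP k hk
  obtain ⟨S, hSf, hSd, hS⟩ := hPP
  obtain ⟨M, hMS, hGer⟩ := hEXI k S hSf hSd hS l hl
  have hmap : map k l = l := hcomm k rfl
  have hcof : l ≤ cofinite := (hCOM.2.2.2.1 l hl).2
  have hfin : {x : ℝ | M 1 0 * x + M 1 1 ≠ 0 ∧
      (1 : Matrix (Fin 2) (Fin 2) ℝ) 1 0 * x + (1 : Matrix (Fin 2) (Fin 2) ℝ) 1 1 ≠ 0 ∧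
      mob M x = mob 1 x}.Finite := by
    by_contra hinf
    obtain ⟨c, hc, h1⟩ := hMOB.2.2 M 1 hGer.1 (by simp) hinf
    have hM : M = c⁻¹ • (1 : Matrix (Fin 2) (Fin 2) ℝ) := by
      rw [h1, smul_smul, inv_mul_cancel₀ hc, one_smul]
    apply hne
    filter_upwards [hGer.2] with x hx
    rw [hx.2, hM, TRI.mob_smul_one _ (inv_ne_zero hc)]
  have hev : ∀ᶠ x in l, k x - x ≠ 0 := by
    have h1 : ∀ᶠ x in l, x ∉ {x : ℝ | M 1 0 * x + M 1 1 ≠ 0 ∧
      (1 : Matrix (Fin 2) (Fin 2) ℝ) 1 0 * x + (1 : Matrix (Fin 2) (Fin 2) ℝ) 1 1 ≠ 0 ∧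
      mob M x = mob 1 x} := hcof hfin.compl_mem_cofinite
    filter_upwards [h1, hGer.2] with x hx hg h0
    apply hx
    refine ⟨hg.1, TRI.one_den x, ?_⟩
    rw [TRI.mob_one, ← hg.2]
    linarith
  rcases hSGN (fun x => k x - x) (k.continuous.sub continuous_id) l hl hev with h | h
  · left
    have h2 : ∀ᶠ x in l, x < k x := by
      filter_upwards [h] with x hx
      linarith
    rcases hlft with rfl | ⟨a, rfl, ha⟩
    · exact Or.inl h2
    · exact Or.inr ⟨a, ha, h2⟩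
  · right
    have h2 : ∀ᶠ y in l, y < k⁻¹ y := by
      rw [← hmap, eventually_map]
      filter_upwards [h] with x hx
      have : k⁻¹ (k x) = x := RelIso.inv_apply_self k x
      rw [this]
      linarith
    rcases hlft with rfl | ⟨a, rfl, ha⟩
    · exact Or.inl h2
    · refine Or.inr ⟨a, fun x hx => ?_, h2⟩
      have h3 : k⁻¹ (k x) = x := RelIso.inv_apply_self k x
      rw [ha x hx] at h3
      exact h3

end Pool.Agent.PPR
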