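import Pool.Agent.PPR.St

/-! # PPR, module UNI (helper62): unique roots -/

set_option autoImplicit false

namespace Pool.Agent.PPR

open Filter Topology Matrix

namespace UNI

lemma pos_pow (hCON : s_CON) (f g : ℝ ≃o ℝ) (h : Pos (f⁻¹ * g)) (n : ℕ) :
    Pos ((f ^ (n + 1))⁻¹ * g ^ (n + 1)) := by
  induction n with
  | zero => simpa using h
  | succ n ih =>
    have h1 : (f ^ (n + 1 + 1))⁻¹ * g ^ (n + 1 + 1) =
        ((f ^ (n + 1))⁻¹ * (f⁻¹ * g) * ((f ^ (n + 1))⁻¹)⁻¹) * ((f ^ (n + 1))⁻¹ * g ^ (n + 1)) := by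
      rw [pow_succ' f (n + 1), pow_succ' g (n + 1)]
      group
    rw [h1]
    exact hCON.1 _ _ (hCON.2.1 _ _ h) ih

lemma not_pow (hCON : s_CON) (f g : ℝ ≃o ℝ) (h : Pos (f⁻¹ * g)) (n : ℕ) (hn : 0 < n) :
    f ^ n ≠ g ^ n := by
  intro he
  obtain ⟨m, rfl⟩ : ∃ m, n = m + 1 := ⟨n - 1, by omega⟩
  have h1 := pos_pow hCON f g h m
  rw [he, inv_mul_cancel] at h1
  exact hCON.2.2 h1

end UNI

theorem t_UNI (hGRP : s_GRP) (hCON : s_CON) (hTRI : s_TRI) : s_UNI := by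
  intro f g hf hg n hn he
  by_contra hne
  have hk : f⁻¹ * g ≠ 1 := fun h => hne (inv_mul_eq_one.1 h)
  rcases hTRI _ (hGRP.2.1 _ _ (hGRP.2.2 _ hf) hg) hk with h | h
  · exact UNI.not_pow hCON f g h n hn he
  · rw [_root_.mul_inv_rev, inv_inv] at h
    exact UNI.not_pow hCON g f h n hn he.symm

end Pool.Agent.PPR
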