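import Pool.Agent.PPR.LOC
import Pool.Agent.PPR.MOB
import Pool.Agent.PPR.GRP
import Pool.Agent.PPR.EXI
import Pool.Agent.PPR.COM
import Pool.Agent.PPR.ADJ
import Pool.Agent.PPR.SUP
import Pool.Agent.PPR.SGN
import Pool.Agent.PPR.CONE
import Pool.Agent.PPR.TRI
import Pool.Agent.PPR.UNI
import Pool.Agent.PPR.GEN
import Pool.Agent.PPR.REP

/-!
# Groups of piecewise projective homeomorphisms of the line: the main theorem
-/

set_option autoImplicit false

namespace Pool.Agent.PPR

/-- every group of piecewise projective homeomorphisms of `ℝ` has the property `LocRep` -/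
theorem locRep_pp : ForPP Pool.Agent.SUR.LocRep :=
  locRep_of (t_REP (t_GEN (t_EXI t_MOB) (t_COM t_MOB) (t_GRP t_MOB)) (t_COM t_MOB) t_ADJ t_SUP)
    (t_UNI (t_GRP t_MOB) t_CON (t_TRI t_MOB (t_EXI t_MOB) t_SUP t_SGN (t_COM t_MOB)))

end Pool.Agent.PPR
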