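import Pool.Agent.PPR.St
import Pool.Agent.SUR.CondG

/-!
# Groups of piecewise projective homeomorphisms of the line have the property `LocRep`
-/

set_option autoImplicit false

namespace Pool.Agent.PPR

open Pool.Agent.SUR (LocRep UniqExp CentRep)

/-- `P` holds for all groups of piecewise projective homeomorphisms of `ℝ` -/
def ForPP (P : (G : Type) → [Group G] → Prop) : Prop :=
  ∀ G : Subgroup (ℝ ≃o ℝ), (∀ f ∈ G, IsPP f) → P G

namespace LOC

theorem centRep_of (hREP : s_REP) (G : Subgroup (ℝ ≃o ℝ)) (hfg : G.FG) (hG : ∀ f ∈ G, IsPP f) :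
    CentRep G := by
  obtain ⟨S, hS, h⟩ := hREP G hfg hG
  refine ⟨ℝ, inferInstance, S, hS, fun g hg => ?_⟩
  have hg1 : g ≠ 1 := by
    rintro rfl
    exact hg IsOfFinOrder.one
  obtain ⟨ρ, h1, h2⟩ := h g hg1
  refine ⟨4, ρ, 1, one_ne_zero, fun z i j => ?_, h2⟩
  rw [one_mul]
  exact h1 z i j

theorem centRep_equiv {G H : Type} [Group G] [Group H] (e : G ≃* H) (h : CentRep H) :
    CentRep G := by
  obtain ⟨F, hF, S, hS, h⟩ := h
  refine ⟨F, hF, S, hS, fun g hg => ?_⟩
  have hg' : ¬IsOfFinOrder (e g) := by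
    intro h1
    apply hg
    rw [isOfFinOrder_iff_pow_eq_one] at h1 ⊢
    obtain ⟨n, hn, h2⟩ := h1
    refine ⟨n, hn, e.injective ?_⟩
    rw [map_pow, h2, map_one]
  obtain ⟨n, ρ, d, hd, h1, h2⟩ := h (e g) hg'
  let c : Subgroup.centralizer {g} →* Subgroup.centralizer {e g} :=
    (e.toMonoidHom.comp (Subgroup.centralizer {g}).subtype).codRestrict _ (fun z => by
      have hz := Subgroup.mem_centralizer_singleton_iff.1 z.2
      refine Subgroup.mem_centralizer_singleton_iff.2 ?_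
      change e z.1 * e g = e g * e z.1
      rw [← map_mul, ← map_mul, hz])
  refine ⟨n, ρ.comp c, d, hd, fun z i j => h1 (c z) i j, ?_⟩
  exact h2

theorem uniqExp_of (hUNI : s_UNI) (G : Subgroup (ℝ ≃o ℝ)) (hG : ∀ f ∈ G, IsPP f)
    (G₀ : Subgroup G) : UniqExp G₀ := by
  refine ⟨0, fun p hp _ x y hxy => ?_⟩
  refine Subtype.ext (Subtype.ext (hUNI _ _ (hG _ x.1.2) (hG _ y.1.2) p hp.pos ?_))
  have h1 := congrArg (fun z : G₀ => ((z : G) : ℝ ≃o ℝ)) hxy
  exact h1

end LOC

theorem locRep_of (hREP : s_REP) (hUNI : s_UNI) : ForPP LocRep := by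
  intro G hG G₀ h₀
  refine ⟨LOC.uniqExp_of hUNI G hG G₀, ?_⟩
  have h1 : (G₀.map G.subtype).FG := by
    rw [← Group.fg_iff_subgroup_fg] at h₀ ⊢
    have := h₀
    exact Group.fg_of_surjective
      (f := (G₀.equivMapOfInjective G.subtype G.subtype_injective).toMonoidHom)
      (MulEquiv.surjective _)
  refine LOC.centRep_equiv (G₀.equivMapOfInjective G.subtype G.subtype_injective)
    (LOC.centRep_of hREP _ h1 ?_)
  rintro _ ⟨f, _, rfl⟩
  exact hG _ f.2

end Pool.Agent.PPR
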