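import Mathlib

/-!
# Groups of piecewise projective homeomorphisms of the line: definitions and statements

Theorem. Every group `G` of piecewise projective homeomorphisms of `ℝ` (finitely many pieces; for example
Thompson's group `F`, all groups of piecewise linear homeomorphisms of `[0, 1]`, the groups of Monod and of
Lodha and Moore) has unique roots, and for each finitely generated `G₀ ≤ G` and each `g ≠ 1` in `G₀` the
centraliser of `g` has a representation of dimension `4` over one finitely generated ring which depends only on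
`G₀`, with `g` mapped to an element of infinite order: the germ at the left end of the support of `g`.

All modules: `theorem Pool.Agent.PPR.t_XXX : s_XXX` in `Pool/Agent/PPR/XXX.lean` (hypotheses as arguments),
auxiliary lemmas in namespace `Pool.Agent.PPR.XXX`.
-/

set_option autoImplicit false

namespace Pool.Agent.PPR

open Filter Topology Matrix

/-- the fractional linear map of a matrix -/
noncomputable def mob (M : Matrix (Fin 2) (Fin 2) ℝ) (x : ℝ) : ℝ :=
  (M 0 0 * x + M 0 1) / (M 1 0 * x + M 1 1)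

/-- piecewise projective with finitely many pieces: at each point `f` has the value of one of finitely many
fractional linear maps -/
def IsPP (f : ℝ ≃o ℝ) : Prop :=
  ∃ S : Set (Matrix (Fin 2) (Fin 2) ℝ), S.Finite ∧ (∀ M ∈ S, M.det ≠ 0) ∧
    ∀ x, ∃ M ∈ S, M 1 0 * x + M 1 1 ≠ 0 ∧ f x = mob M x

/-- the filters of the neighbourhoods of `-∞` and of the right neighbourhoods of points -/
def IsEnd (l : Filter ℝ) : Prop := l = atBot ∨ ∃ a : ℝ, l = 𝓝[>] a

/-- the germ of `f` along `l` is that of the fractional linear map of `M` -/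
def Ger (f : ℝ → ℝ) (l : Filter ℝ) (M : Matrix (Fin 2) (Fin 2) ℝ) : Prop :=
  M.det ≠ 0 ∧ ∀ᶠ x in l, M 1 0 * x + M 1 1 ≠ 0 ∧ f x = mob M x

/-- the adjoint representation -/
noncomputable def Ad (M : Matrix (Fin 2) (Fin 2) ℝ) :
    Matrix (Fin 2 × Fin 2) (Fin 2 × Fin 2) ℝ :=
  kroneckerMap (· * ·) M (M⁻¹)ᵀ

/-- MOB (100 lines), no hypotheses. Algebra of fractional linear maps.
(1) `(M N) 1 0 * x + (M N) 1 1 = (N 1 0 * x + N 1 1) * (M 1 0 * mob N x + M 1 1)` and
`(M N) 0 0 * x + (M N) 0 1 = (N 1 0 * x + N 1 1) * (M 0 0 * mob N x + M 0 1)` (`Matrix.mul_apply`,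
`Fin.sum_univ_two`). (2) `adj M = [[d, -b], [-c, a]]` (`Matrix.adjugate_fin_two`); the new denominator is
`det M / (c x + d)`. (3) `(M 0 0 * x + M 0 1) * (N 1 0 * x + N 1 1) = (N 0 0 * x + N 0 1) * (M 1 0 * x + M 1 1)`
for infinitely many `x`, so the coefficients of these polynomials of degree `≤ 2` agree (for example
`Polynomial.eq_of_infinite_eval_eq`): `a c' = a' c`, `a d' + b c' = a' d + b' c`, `b d' = b' d`. With
`det M ≠ 0`: `det M * (a d' - d a') = 0` and so on (multiply the middle identity by `a d`), then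
`a d' = d a'`, `b c' = c b'`, and `d (b' a - a' b) = 0 = c (b' a - a' b)`, so `b' a = a' b`, and similarly
`c' d = d' c`. Now `(a', b')` and `(c', d')` are multiples of `(a, b)`, `(c, d)` with the same factor
`k = (a' d - b' c) / det M`; `k ≠ 0` as `N ≠ 0`. -/
def s_MOB : Prop :=
  (∀ (M N : Matrix (Fin 2) (Fin 2) ℝ) (x : ℝ), N 1 0 * x + N 1 1 ≠ 0 →
    M 1 0 * mob N x + M 1 1 ≠ 0 →
    (M * N) 1 0 * x + (M * N) 1 1 ≠ 0 ∧ mob (M * N) x = mob M (mob N x)) ∧
  (∀ (M : Matrix (Fin 2) (Fin 2) ℝ) (x : ℝ), M.det ≠ 0 → M 1 0 * x + M 1 1 ≠ 0 →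
    M.adjugate 1 0 * mob M x + M.adjugate 1 1 ≠ 0 ∧ mob M.adjugate (mob M x) = x) ∧
  (∀ (M N : Matrix (Fin 2) (Fin 2) ℝ), M.det ≠ 0 → N.det ≠ 0 →
    {x : ℝ | M 1 0 * x + M 1 1 ≠ 0 ∧ N 1 0 * x + N 1 1 ≠ 0 ∧ mob M x = mob N x}.Infinite →
    ∃ c : ℝ, c ≠ 0 ∧ N = c • M)

/-- GRP (60 lines), hypothesis `s_MOB`. The piecewise projective maps are a group (multiplication in
`ℝ ≃o ℝ` is composition). `S = {1}`; the products `M * N` (`Set.Finite.mul` or `Set.Finite.image2`); the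
adjugates (`det (adjugate M) = det M` for size `2`). For the inverse at `y` use the matrix at `x = f⁻¹ y`. -/
def s_GRP : Prop :=
  IsPP 1 ∧ (∀ f g : ℝ ≃o ℝ, IsPP f → IsPP g → IsPP (f * g)) ∧ (∀ f : ℝ ≃o ℝ, IsPP f → IsPP f⁻¹)

/-- EXI (130 lines), hypothesis `s_MOB`. Germs exist.
The set `B` of the poles `{x | M 1 0 * x + M 1 1 = 0}`, `M ∈ S` (finite, as `det M ≠ 0`), and of the `x` with
`mob M x = mob N x` without poles, for `M, N ∈ S` which are not proportional (finite by MOB (3)), is finite. So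
there is an open interval `I` (`Ioo a b` or `Iio b`) in `l` with `I ∩ B = ∅`. Let `x₀ ∈ I`, `f x₀ = mob M x₀`.
The set of the `x ∈ I` with `f x = mob M x` is closed in `I` (`f` and `mob M` are continuous on `I`) and open:
if `f x₁ = mob M x₁`, then `f x₁ ≠ mob N x₁` for all `N ∈ S` not proportional to `M`, so near `x₁` the values of
`f` are those of matrices proportional to `M`, that is of `mob M`. `I` is preconnected. -/
def s_EXI : Prop :=
  ∀ (f : ℝ ≃o ℝ) (S : Set (Matrix (Fin 2) (Fin 2) ℝ)), S.Finite → (∀ M ∈ S, M.det ≠ 0) →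
    (∀ x, ∃ M ∈ S, M 1 0 * x + M 1 1 ≠ 0 ∧ f x = mob M x) →
    ∀ l : Filter ℝ, IsEnd l → ∃ M ∈ S, Ger f l M

/-- COM (80 lines), hypothesis `s_MOB`. Germs and composition.
(1) MOB (1), `Filter.eventually_map`. (2) clear. (3) MOB (3): an eventual property along `l ≤ cofinite`,
`l` proper, holds for infinitely many `x`. (4) `(atBot : Filter ℝ) ≤ cofinite`, `𝓝[>] a ≤ cofinite`. (5) an order
isomorphism maps `atBot` to `atBot` (`OrderIso.map_atBot`) and `𝓝[>] a` to `𝓝[>] (h a)`. -/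
def s_COM : Prop :=
  (∀ (f g : ℝ → ℝ) (l : Filter ℝ) (M N : Matrix (Fin 2) (Fin 2) ℝ), Ger f (map g l) M →
    Ger g l N → Ger (f ∘ g) l (M * N)) ∧
  (∀ l : Filter ℝ, Ger id l 1) ∧
  (∀ (f : ℝ → ℝ) (l : Filter ℝ) (M N : Matrix (Fin 2) (Fin 2) ℝ), IsEnd l → Ger f l M →
    Ger f l N → ∃ c : ℝ, c ≠ 0 ∧ N = c • M) ∧
  (∀ l : Filter ℝ, IsEnd l → l.NeBot ∧ l ≤ cofinite) ∧
  (∀ (h : ℝ ≃o ℝ) (l : Filter ℝ), IsEnd l → IsEnd (map h l))

/-- ADJ (60 lines), no hypotheses. The adjoint representation.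
(2) `kroneckerMap` of products (`Matrix.mul_kronecker_mul`), `Matrix.mul_inv_rev`, `transpose_mul`.
(3) `(c • M)⁻¹ = c⁻¹ • M⁻¹`. (4) the entries `M i k * M⁻¹ l j = δ_ij δ_kl`-type identities say `M X M⁻¹ = X` for all
`X`, so `M` is scalar. (5) by definition. -/
def s_ADJ : Prop :=
  Ad 1 = 1 ∧
  (∀ M N : Matrix (Fin 2) (Fin 2) ℝ, M.det ≠ 0 → N.det ≠ 0 → Ad (M * N) = Ad M * Ad N) ∧
  (∀ (M : Matrix (Fin 2) (Fin 2) ℝ) (c : ℝ), M.det ≠ 0 → c ≠ 0 → Ad (c • M) = Ad M) ∧
  (∀ M : Matrix (Fin 2) (Fin 2) ℝ, M.det ≠ 0 → Ad M = 1 → ∃ c : ℝ, c ≠ 0 ∧ M = c • 1) ∧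
  (∀ (M : Matrix (Fin 2) (Fin 2) ℝ) (p q : Fin 2 × Fin 2), Ad M p q = M p.1 q.1 * M⁻¹ q.2 p.2)

/-- SUP (100 lines), no hypotheses. The left end of the support.
Let `U = {x | g x ≠ x}`, open and not empty. If `U` is not bounded below take `l = atBot`. Otherwise
`a = sInf U`, `l = 𝓝[>] a`: `a ∉ U` (`U` is open), so points of `U` are arbitrarily near to `a` on the right. If
`h` commutes with `g`, then `h` maps `U` onto `U`, `h a = a` (order isomorphisms preserve `sInf`), and `h` maps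
`𝓝[>] a` onto `𝓝[>] a`. -/
def s_SUP : Prop :=
  ∀ g : ℝ ≃o ℝ, g ≠ 1 → ∃ l : Filter ℝ, IsEnd l ∧ ¬(∀ᶠ x in l, g x = x) ∧
    (l = atBot ∨ ∃ a : ℝ, l = 𝓝[>] a ∧ ∀ x ≤ a, g x = x) ∧
    ∀ h : ℝ ≃o ℝ, h * g = g * h → map h l = l

/-- SGN (40 lines), no hypotheses. There is an interval `Iio b` or `Ioo a b` on which `φ` has no zero; the
intermediate value theorem. -/
def s_SGN : Prop :=
  ∀ φ : ℝ → ℝ, Continuous φ → ∀ l : Filter ℝ, IsEnd l → (∀ᶠ x in l, φ x ≠ 0) →
    (∀ᶠ x in l, 0 < φ x) ∨ (∀ᶠ x in l, φ x < 0)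

/-- the positive cone: to the right of the left end of its support `k` moves the points up -/
def Pos (k : ℝ ≃o ℝ) : Prop :=
  (∀ᶠ x in atBot, x < k x) ∨ ∃ a : ℝ, (∀ x ≤ a, k x = x) ∧ ∀ᶠ x in 𝓝[>] a, x < k x

/-- CON (120 lines), no hypotheses. The positive cone is a semigroup, invariant under conjugation.
(1) If `k` is of the first kind: `k x > x` near `-∞`, `k' x ≥ x` near `-∞`, so `(k * k') x = k (k' x) ≥ k x > x`,
and similarly if `k'` is of the first kind. Both of the second kind with `a`, `a'`: for `a < a'`: on `𝓝[>] a` `k'`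
is the identity; for `a > a'`: on `𝓝[>] a'` `k' x > x` and `k' x` is near to `a'` (continuity), where `k` is the
identity; for `a = a'`: `k' x > x > a`, `k (k' x) > k x > x`. (2) clear (the point `u a`). (3) `x < x`. -/
def s_CON : Prop :=
  (∀ k k' : ℝ ≃o ℝ, Pos k → Pos k' → Pos (k * k')) ∧
  (∀ u k : ℝ ≃o ℝ, Pos k → Pos (u * k * u⁻¹)) ∧ ¬Pos 1

/-- TRI (60 lines), hypotheses `s_MOB`, `s_EXI`, `s_SUP`, `s_SGN`, `s_COM`. Let `l` be the filter of SUP for `k`, and
`M` the germ of `k` along `l` (EXI). `k` is not eventually the identity along `l`, so `mob M x = x` only for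
finitely many `x` (MOB (3) for `M` and `1`), and eventually `k x ≠ x`. SGN for `k x - x`: eventually `x < k x`, then
`Pos k`; or eventually `k x < x`, then `x < k⁻¹ x` eventually along `map k l = l` (SUP for `h = k`), and
`Pos k⁻¹`. -/
def s_TRI : Prop := ∀ k : ℝ ≃o ℝ, IsPP k → k ≠ 1 → Pos k ∨ Pos k⁻¹

/-- UNI (60 lines), hypotheses `s_GRP`, `s_CON`, `s_TRI`. Unique roots. If `f ≠ g`, then, after exchanging `f` and `g`,
`Pos (f⁻¹ * g)` (GRP, TRI). By induction `Pos ((f ^ n)⁻¹ * g ^ n)` for `n > 0`, as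
`(f ^ (n + 1))⁻¹ * g ^ (n + 1) = ((f ^ n)⁻¹ * (f⁻¹ * g) * f ^ n) * ((f ^ n)⁻¹ * g ^ n)` (check:
`(f ^ n)⁻¹ f⁻¹ g f ^ n (f ^ n)⁻¹ g ^ n`). But `(f ^ n)⁻¹ * g ^ n = 1`. -/
def s_UNI : Prop :=
  ∀ f g : ℝ ≃o ℝ, IsPP f → IsPP g → ∀ n : ℕ, 0 < n → f ^ n = g ^ n → f = g

/-- GEN (120 lines), hypotheses `s_EXI`, `s_COM`, `s_GRP`. Germs for finitely generated groups.
Let `G₀` be the closure of the finite set `A`; `T` = the union of the finite sets of matrices of the `f` and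
`f⁻¹`, `f ∈ A`. Induction on `f ∈ closure A` (`Subgroup.closure_induction''` or
`Subgroup.exists_list_of_mem_closure`): the property is `∀ l, IsEnd l → ∃ M ∈ Submonoid.closure T, Ger f l M`;
it holds for the generators and their inverses (EXI), for `1`, and for products: the germ of `f * g` along `l` is the
product of the germ of `f` along `map g l` (COM (5)) and the germ of `g` along `l` (COM (1)). -/
def s_GEN : Prop :=
  ∀ G₀ : Subgroup (ℝ ≃o ℝ), G₀.FG → (∀ f ∈ G₀, IsPP f) →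
    ∃ T : Set (Matrix (Fin 2) (Fin 2) ℝ), T.Finite ∧ (∀ M ∈ T, M.det ≠ 0) ∧
      ∀ f ∈ G₀, ∀ l : Filter ℝ, IsEnd l → ∃ M ∈ Submonoid.closure T, Ger f l M

/-- REP (150 lines), hypotheses `s_GEN`, `s_COM`, `s_ADJ`, `s_SUP`. The representations of the centralisers.
`T` as in GEN, `S` = the set of the entries of the matrices `M` and `M⁻¹`, `M ∈ T`. For `M ∈ closure T` the entries
of `M` and `M⁻¹`, so of `Ad M` (ADJ (5)), are in `R = Subring.closure S`. Let `g ≠ 1` in `G₀`, `l` as in SUP for `g`.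
For `z` in the centraliser `map z l = l`; choose a germ `M z ∈ closure T` of `z` along `l`; `Ad (M z)` does not depend
on the choice (COM (3), ADJ (3)) and is multiplicative (COM (1), ADJ (2)) and `Ad (M 1) = 1`. `ρ z` is `Ad (M z)` reindexed by
`finProdFinEquiv` (`Matrix.reindexAlgEquiv`). If `ρ g ^ k = 1`, `k > 0`, then `Ad (M g ^ k) = 1`, `M g ^ k` is a scalar (ADJ (4)) and a
germ of `g ^ k` along `l`, so `g ^ k` is eventually the identity; but `(g ^ k) x = x` implies `g x = x` (`g` preserves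
the order). Contradiction to SUP. -/
def s_REP : Prop :=
  ∀ G₀ : Subgroup (ℝ ≃o ℝ), G₀.FG → (∀ f ∈ G₀, IsPP f) →
    ∃ S : Set ℝ, S.Finite ∧ ∀ g : G₀, g ≠ 1 →
      ∃ ρ : Subgroup.centralizer {g} →* Matrix (Fin 4) (Fin 4) ℝ,
        (∀ z i j, ρ z i j ∈ Subring.closure S) ∧
        ¬IsOfFinOrder (ρ ⟨g, Subgroup.mem_centralizer_singleton_iff.2 rfl⟩)

end Pool.Agent.PPR
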