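import Pool.Agent.DET.XCOL
import Pool.Agent.SUR.CondF
import Pool.Agent.PPR.FIN

/-!
# Finite-dimensional representations see only trivial units, and units of finite cyclic subgroups

Let `G` be a torsion free group. The Farrell–Jones conjecture predicts `Wh G = 0`: every invertible matrix
`X` over `ℤ[G]` has the same class in `K₁(ℤ[G])` as a trivial unit `± g`. In particular all determinants
`det ρ(X)`, for the finite-dimensional representations `ρ` of `G` over fields, are those of one trivial
unit. This is proved here for all torsion free linear groups, over any field, for all torsion free groups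
of automorphisms or outer automorphisms of finitely generated free groups, for all torsion free groups of
automorphisms of irreducible affine varieties with a fixed point, over a field of characteristic `0`, for all
groups of piecewise projective homeomorphisms of the line, and more generally for all torsion free groups
with the property `LocED`.

For a group `G` with elements of finite order the conjecture predicts that `K₁(ℤ[G])`, modulo torsion, is
generated by the elements of `G`, by the images of the groups `K₁(ℤ[H])`, `H ≤ G` finite, and by a part which
comes from the groups `K₋₁(ℤ[H])` and has torsion images in `Wh Q` for all finite groups `Q`. It is proved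
here that for all the groups above, torsion free or not, which are finitely generated and have only finitely
many conjugacy classes of elements of finite order (for instance `GL_n(ℤ)`, `Aut(F_n)`, `Out(F_n)`) all
determinants `det ρ(X) ^ N`, for one `N > 0`, are those of one unit `w` of `ℤ[G]`, which is a product of
elements of `G` and of units of the integral group rings of finite cyclic subgroups of `G`.

For every finitely generated group `G` the finite quotients of `G` decide: if the class of `X` has finite
order in `Wh Q` for all finite quotients `Q` of `G`, then all determinants `det ρ(X)`, over all reduced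
rings, are those of one trivial unit. The same holds for every group `G` and all `X` whose class in `Wh G` has
finite order. For finite groups `G` this is Wall's theorem on the torsion of `K₁(ℤ[G])`.

Standard consequences (not formalised). If `G` is torsion free as above, all Reidemeister torsions are homotopy
invariants of finite complexes with fundamental group `G`, as for a homotopy equivalence `f` and a
representation `ρ` over a field they differ by `det ρ(τ(f))`, `τ(f)` the Whitehead torsion, which is the
determinant of a trivial unit. For each finite quotient `Q` of `G` the map from `Wh G` to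
`Wh Q / SK₁(ℤ[Q])` is zero.

Outline. The theorem on degree one (`Pool.Agent.SUR.surjW_D`) shows that a multiple of the image of the
class of `X` in `Wh Q` comes from the finite subgroups of `G`, for each homomorphism from `G` to a finite
group `Q`; it is zero if `G` is torsion free. With finitely many conjugacy classes of elements of finite
order one can choose one multiple and one unit `w` for all `Q`, by the finite generation of the unit groups
(`Pool.Agent.SUR.uniform_cyc`), so one may assume that the class of `X` is torsion in all `Wh Q`. This
property passes to the restrictions of `X` to the subgroups of finite index (`Pool.Agent.DET.t_XRES`).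
By Higman's theorem the determinant over `ℤ[G^ab]` is a trivial unit `e g`, and the
same holds for the restrictions of `X` to subgroups of finite index. For a normal subgroup `M` of index a
power of `p` a congruence modulo `p` shows that the determinant over `ℤ[M^ab]` of the restriction of `X` is
`1` if the determinant over `ℤ[G^ab]` is `1` and `G/M` is abelian. By Clifford theory this gives, by
induction on the dimension, the determinants in all representations, over algebraically closed fields
of any characteristic, with quasi-elementary image. Solomon's induction theorem, applied to `ρ` and to the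
one dimensional representation `det ρ`, gives all representations with finite image, and the general case
follows by reduction modulo the maximal ideals of the ring generated by the matrix entries.
-/

set_option autoImplicit false

namespace Pool.Agent.PPR.TrivialReady

open Pool.Agent.WhK (Wh cls)
open Pool.Agent.SUR (LocED ForGL ForAut ForOut ForDom ForAlg)
open Pool.Agent.PPR (ForPP)

/-- the matrix `ρ(x)` over `R`, for `x` in `ℤ[G]`: the sum of the matrices `c • ρ(g)`, `c` the coefficient of
`x` at `g` -/
noncomputable def ext {G R : Type} [Group G] [CommRing R] {n : ℕ} (ρ : G →* GL (Fin n) R)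
    (x : MonoidAlgebra ℤ G) : Matrix (Fin n) (Fin n) R :=
  Matrix.of fun a b => (MonoidAlgebra.coeff x).sum fun g c => (c : R) * ρ g a b

/-- the matrix `ρ(X)` over `R` of size `m n` with the `n × n` blocks `ρ(X i j)` -/
noncomputable def blocks {G R : Type} [Group G] [CommRing R] {m n : ℕ} (ρ : G →* GL (Fin n) R)
    (X : Matrix (Fin m) (Fin m) (MonoidAlgebra ℤ G)) :
    Matrix (Fin m × Fin n) (Fin m × Fin n) R :=
  Matrix.of fun p q => ext ρ (X p.1 q.1) p.2 q.2

/-- there are one sign `e` and one `g ∈ G` such that `det ρ(X) = e ^ n det ρ(g)`, which is `det ρ(e g)`, for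
all `n`, all reduced commutative rings `R` and all homomorphisms `ρ : G → GL_n(R)` -/
def TrivialDet {G : Type} [Group G] {m : ℕ}
    (X : (Matrix (Fin m) (Fin m) (MonoidAlgebra ℤ G))ˣ) : Prop :=
  ∃ (e : ℤˣ) (g : G), ∀ (R : Type) [CommRing R] [IsReduced R] (n : ℕ) (ρ : G →* GL (Fin n) R),
    (blocks ρ X.val).det = ((e : ℤ) : R) ^ n * (ρ g).val.det

/-- `TrivialDet X` for all invertible matrices `X` over `ℤ[G]` -/
def TrivialDets (G : Type) [Group G] : Prop :=
  ∀ (m : ℕ) (X : (Matrix (Fin m) (Fin m) (MonoidAlgebra ℤ G))ˣ), TrivialDet X

/-- the group of the units of `ℤ[G]` generated by the elements of `G` and by the units of the rings `ℤ[C]`, `C`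
a finite cyclic subgroup of `G` -/
noncomputable def finUnits (G : Type) [Group G] : Subgroup (MonoidAlgebra ℤ G)ˣ :=
  Subgroup.closure {w | (∃ g : G, w.val = MonoidAlgebra.single g 1) ∨
    ∃ (C : Subgroup G) (_ : Finite C) (_ : IsCyclic C) (v : (MonoidAlgebra ℤ C)ˣ),
      w.val = MonoidAlgebra.mapDomain C.subtype v.val}

/-- for each invertible matrix `X` over `ℤ[G]` there are `N > 0` and one unit `w` of `ℤ[G]`, a product of
elements of `G` and of units of the rings `ℤ[C]`, `C` finite cyclic subgroups of `G`, such that
`det ρ(X) ^ N = det ρ(w)` for all `n`, all reduced commutative rings `R` and all homomorphisms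
`ρ : G → GL_n(R)` -/
def UnitDets (G : Type) [Group G] : Prop :=
  ∀ (m : ℕ) (X : (Matrix (Fin m) (Fin m) (MonoidAlgebra ℤ G))ˣ),
    ∃ N : ℕ, 0 < N ∧ ∃ w ∈ finUnits G, ∀ (R : Type) [CommRing R] [IsReduced R] (n : ℕ)
      (ρ : G →* GL (Fin n) R), (blocks ρ X.val).det ^ N = (ext ρ w.val).det

/-- `TrivialDets G` if `G` is torsion free, and `UnitDets G` if `G` is finitely generated and its elements of
finite order are in finitely many conjugacy classes -/
def Dets (G : Type) [Group G] : Prop :=
  ((∀ g : G, IsOfFinOrder g → g = 1) → TrivialDets G) ∧
  (Group.FG G → {K : ConjClasses G | ∃ g : G, IsOfFinOrder g ∧ ConjClasses.mk g = K}.Finite →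
    UnitDets G)

theorem ext_eq {G R : Type} [Group G] [CommRing R] {n : ℕ} (ρ : G →* GL (Fin n) R)
    (x : MonoidAlgebra ℤ G) : ext ρ x = Pool.Agent.DET.rh (Pool.Agent.DET.FINR.toM ρ) x := by
  refine Matrix.ext fun a b => ?_
  rw [Pool.Agent.DET.FINR.rh_apply]
  rfl

theorem finUnits_le (G : Type) [Group G] : Pool.Agent.DET.finUnits G ≤ finUnits G := by
  refine Subgroup.closure_mono ?_
  rintro w (⟨g, rfl⟩ | ⟨C, h1, h2, v, rfl⟩)
  · exact Or.inl ⟨g, rfl⟩
  · exact Or.inr ⟨C, h1, h2, v, rfl⟩

theorem unitDets {G : Type} [Group G] (hG : Pool.Agent.SUR.SurjW G) (hfg : Group.FG G)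
    (hc : {K : ConjClasses G | ∃ g : G, IsOfFinOrder g ∧ ConjClasses.mk g = K}.Finite) :
    UnitDets G := by
  intro m X
  obtain ⟨N, hN, w, hw, h⟩ := Pool.Agent.DET.det_fin G hfg hG hc m X
  refine ⟨N, hN, w, finUnits_le G hw, fun R _ _ n ρ => ?_⟩
  rw [ext_eq]
  exact h R n ρ

/-- **Theorem.**
(1) `Dets G` for all subgroups `G` of: `GL_d K`, `K` any field; the automorphism group
of `N`, `N` any finitely generated residually torsion-free nilpotent group; the outer automorphism group of
`N`, `N` any finitely generated free group; the group of the automorphisms of `B` which preserve `ε`, where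
`ε : B → K` is an augmentation of an algebra of finite type over a field `K` of characteristic `0` and `B` is
a commutative domain or the powers of the kernel of `ε` have the intersection `0`; the group of the increasing
piecewise projective homeomorphisms of `ℝ`.
(2) `Dets G` for all groups `G` with the property `LocED`, and `TrivialDets G` if moreover the Whitehead
groups of the finite subgroups of `G` are torsion groups.
(3) `TrivialDet X` for all groups `G` and all invertible matrices `X` over `ℤ[G]` whose class in `Wh G` has
finite order.
(4) `TrivialDet X` for all finitely generated groups `G` and all invertible matrices `X` over `ℤ[G]` such that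
the image of the class of `X` in `Wh Q` has finite order for all homomorphisms from `G` to finite groups `Q`. -/
theorem result :
    (ForGL.{0} Dets ∧ ForAut.{0} Dets ∧ ForOut.{0} Dets ∧ ForDom.{0} Dets ∧ ForAlg.{0} Dets ∧
      ForPP Dets) ∧
    (∀ (G : Type) [Group G], LocED G → Dets G ∧
      ((∀ (H : Subgroup G) [Finite H] (z : Wh H), ∃ k : ℕ, 0 < k ∧ k • z = 0) →
        TrivialDets G)) ∧
    (∀ (G : Type) [Group G] (m : ℕ) (X : (Matrix (Fin m) (Fin m) (MonoidAlgebra ℤ G))ˣ),
      (∃ k : ℕ, 0 < k ∧ k • Wh.mk (cls X) = 0) → TrivialDet X) ∧
    ∀ (G : Type) [Group G], Group.FG G →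
      ∀ (m : ℕ) (X : (Matrix (Fin m) (Fin m) (MonoidAlgebra ℤ G))ˣ),
        (∀ (Q : Type) [Group Q] [Finite Q] (π : G →* Q),
          ∃ k : ℕ, 0 < k ∧ k • Wh.map π (Wh.mk (cls X)) = 0) → TrivialDet X := by
  have key : ∀ (G : Type) [Group G], LocED G → Dets G :=
    fun G _ hG => ⟨fun hT m X => Pool.Agent.DET.det_locED G
      (Pool.Agent.DET.finTors_of_torsionFree G hT) hG m X,
      fun hfg hc => unitDets (Pool.Agent.SUR.surjW_D G hG) hfg hc⟩
  exact ⟨⟨fun F _ n G => key G (Pool.Agent.SUR.locED_of_locE G
        (Pool.Agent.SUR.locE_of_locCentEul G (Pool.Agent.SUR.locCentEul_linear F n G))),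
      fun N _ h1 h2 G => key G
        (Pool.Agent.SUR.locED_of_locE G (Pool.Agent.SUR.locE_aut N h1 h2 G)),
      fun α _ Q _ q hq hker G => key G
        (Pool.Agent.SUR.locED_of_locE G (Pool.Agent.SUR.locE_out α Q q hq hker G)),
      fun K B _ _ _ _ _ ε hft G hG => key G (Pool.Agent.SUR.locED_alg K B ε hft
        (Pool.Agent.SUR.t_VDOM K B ε hft) G hG),
      fun K B _ _ _ _ ε hft h G hG => key G (Pool.Agent.SUR.locED_alg K B ε hft h G hG),
      fun G hG => key G fun G₀ h₀ => Or.inr (Pool.Agent.SUR.locU_of_locRep G
        (Pool.Agent.PPR.locRep_pp G hG) G₀ h₀)⟩,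
    fun G _ hE => ⟨key G hE, fun hT m X => Pool.Agent.DET.det_locED G hT hE m X⟩,
    fun G _ m X ⟨k, hk, h⟩ => Pool.Agent.DET.det_order G m X k hk h,
    fun G _ hfg m X h => Pool.Agent.DET.det_TX G hfg m X (Pool.Agent.DET.XTOR.tx_of_wh h)⟩

end Pool.Agent.PPR.TrivialReady
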